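import Pool.Agent.Helper41.JT.Step
import Pool.Agent.Helper79.GQ.MA

/-!
# JT: measurability (helper41)
-/

set_option autoImplicit false

namespace Pool.Agent.Helper41.JT

open Pool.Agent.Helper79.GR MeasureTheory ProbabilityTheory

variable {d : ℕ}

theorem mle {f g : (Edge d → ℝ) → ℝ} (hf : Measurable f) (hg : Measurable g) :
    Measurable fun c => f c ≤ g c :=
  measurableSet_setOfPred.1 (measurableSet_le hf hg)

theorem mlt {f g : (Edge d → ℝ) → ℝ} (hf : Measurable f) (hg : Measurable g) :
    Measurable fun c => f c < g c :=
  measurableSet_setOfPred.1 (measurableSet_lt hf hg)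

instance countable_edge : Countable (Edge d) := by
  have : Countable (Sym2 (V d)) := Quot.mk_surjective.countable
  exact inferInstance

theorem measurable_cost_cfg (x : V d) (w : List (St d)) :
    Measurable fun c : Edge d → ℝ => cost c x w := by
  induction w generalizing x with
  | nil => exact measurable_const
  | cons s w ih => exact (measurable_pi_apply (ed x s)).add (ih (x + sv s))

theorem measurable_dl (x y v : V d) : Measurable fun c : Edge d → ℝ => dl c x y v :=
  (measurable_T_cfg x v).sub (measurable_T_cfg y v)

theorem measurable_Geo (x : V d) (w : List (St d)) :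
    Measurable fun c : Edge d → ℝ => Geo c x w := by
  unfold Geo
  exact Measurable.forall fun w' => measurable_const.imp
    (mle (measurable_cost_cfg x w) (measurable_cost_cfg x w'))

theorem ok_iff (c : Edge d → ℝ) : Ok c ↔ (∀ e, 0 < c e) ∧ ∀ (x : V d) (R : ℕ), ∃ L : ℕ,
    ∀ w : List (St d), cost c x w ≤ R → w.length ≤ L := by
  constructor
  · intro h
    refine ⟨h.ps, fun x R => ?_⟩
    obtain ⟨L, hL⟩ := ((h.fin x R).image List.length).bddAbove
    exact ⟨L, fun w hw => hL ⟨w, hw, rfl⟩⟩
  · rintro ⟨h1, h2⟩
    refine ⟨h1, fun x R => ?_⟩
    obtain ⟨N, hN⟩ := exists_nat_ge R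
    obtain ⟨L, hL⟩ := h2 x N
    exact (List.finite_length_le (St d) L).subset fun w hw => hL w (le_trans hw hN)

theorem measurableSet_Ok : MeasurableSet {c : Edge d → ℝ | Ok c} := by
  have h : {c : Edge d → ℝ | Ok c} = {c | (∀ e, 0 < c e) ∧ ∀ (x : V d) (R : ℕ), ∃ L : ℕ,
      ∀ w : List (St d), cost c x w ≤ R → w.length ≤ L} := by
    ext c
    exact ok_iff c
  rw [h]
  refine measurableSet_setOfPred.2 ?_
  exact (Measurable.forall fun e => mlt measurable_const (measurable_pi_apply e)).and
    (Measurable.forall fun x => Measurable.forall fun R => Measurable.exists fun L =>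
      Measurable.forall fun w =>
        (mle (measurable_cost_cfg x w) measurable_const).imp measurable_const)

theorem measurable_Few (y : V d) (K : ℕ) : Measurable fun c : Edge d → ℝ => Few c y K := by
  unfold Few
  exact Measurable.forall fun m => Measurable.exists fun n => Measurable.forall fun W =>
    (Measurable.forall fun i => measurable_const.and (measurable_Geo y (W i))).imp
      measurable_const

theorem measurable_FewA (y : V d) (K : ℕ) (e : Edge d) :
    Measurable fun c : Edge d → ℝ => FewA c y K e := by
  unfold FewA
  exact Measurable.forall fun m => Measurable.exists fun n => Measurable.forall fun W =>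
    (Measurable.forall fun i => measurable_const.and
      ((measurable_Geo y (W i)).and measurable_const)).imp measurable_const

theorem measurable_Xr (ε : ℝ) (x y p : V d) (s : St d) :
    Measurable fun c : Edge d → ℝ => Xr ε c x y p s := by
  unfold Xr
  exact Measurable.exists fun v => (mlt (measurable_dl x y p) (measurable_dl x y v)).and
    (Measurable.forall fun R => Measurable.exists fun z => measurable_const.and
      ((mle ((((measurable_T_cfg x p).add (measurable_pi_apply (ed p s))).add
        (measurable_T_cfg (p + sv s) v)).add (measurable_T_cfg v z)) (measurable_T_cfg x z)).and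
        (mle (measurable_dl x y z) ((measurable_dl x y p).add measurable_const))))

theorem measurableSet_Af (β ε : ℝ) (K : ℕ) (x y p : V d) (s : St d) :
    MeasurableSet {c : Edge d → ℝ | Af β ε K x y p s c} := by
  refine measurableSet_setOfPred.2 ?_
  unfold Af
  exact (mle measurable_const (measurable_pi_apply (ed p s))).and
    ((measurable_Few y K).and (measurable_Xr ε x y p s))

theorem measurableSet_Ef (K : ℕ) (y p : V d) (s : St d) :
    MeasurableSet {c : Edge d → ℝ | Ef K y p s c} := by
  refine measurableSet_setOfPred.2 ?_
  unfold Ef Yr Thr
  exact (Measurable.forall fun R => Measurable.exists fun z => measurable_const.and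
    (mle (((measurable_T_cfg y p).add (measurable_pi_apply (ed p s))).add
      (measurable_T_cfg (p + sv s) z)) (measurable_T_cfg y z))).and
    (measurable_FewA y K (ed p s))

end Pool.Agent.Helper41.JT
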