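import Mathlib

/-!
# JT: changing one coordinate (helper41; after Helper79/GQ/BI.lean)

`E`, `G` sets of configurations; every section of `E` in the coordinate `i₀` has measure at most
`η`, and if the section is not empty then all values in `H` give configurations in `G`.  Then
`ν H * P E ≤ η * P G`.
-/

set_option autoImplicit false

namespace Pool.Agent.Helper41.JT

open MeasureTheory ProbabilityTheory
open scoped ENNReal

theorem slice {ι Ω : Type*} [DecidableEq ι] [MeasurableSpace Ω] (P : Measure Ω)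
    [IsProbabilityMeasure P]
    (X : ι → Ω → ℝ) (hm : ∀ i, Measurable (X i)) (hi : iIndepFun X P) (ν : Measure ℝ)
    (i₀ : ι) (hl : P.map (X i₀) = ν) (H : Set ℝ)
    (E G : Set (ι → ℝ)) (hE : MeasurableSet E) (hG : MeasurableSet G) (η : ℝ≥0∞)
    (hη : ∀ c : ι → ℝ, ν {t | Function.update c i₀ t ∈ E} ≤ η)
    (hEG : ∀ c ∈ E, ∀ t ∈ H, Function.update c i₀ t ∈ G) :
    ν H * P {ω | (fun i => X i ω) ∈ E} ≤ η * P {ω | (fun i => X i ω) ∈ G} := by
  classical
  have hνp : IsProbabilityMeasure ν := by
    rw [← hl]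
    exact Measure.isProbabilityMeasure_map (hm i₀).aemeasurable
  set XR : Ω → ({i // i ≠ i₀} → ℝ) := fun ω i => X i ω with hXR
  have hXRm : Measurable XR := measurable_pi_lambda _ fun i => hm i
  -- independence
  have hind : IndepFun (X i₀) XR P := by
    rw [IndepFun_iff_Indep]
    have h1 : MeasurableSpace.comap (X i₀) inferInstance ≤
        ⨆ i ∈ ({i₀} : Set ι), MeasurableSpace.comap (X i) inferInstance :=
      le_iSup₂_of_le i₀ rfl le_rfl
    have h2 : MeasurableSpace.comap XR inferInstance ≤
        ⨆ i ∈ {i | i ≠ i₀}, MeasurableSpace.comap (X i) inferInstance := by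
      refine measurable_iff_comap_le.mp ?_
      refine @measurable_pi_lambda Ω {i // i ≠ i₀} (fun _ => ℝ)
        (⨆ i ∈ {i | i ≠ i₀}, MeasurableSpace.comap (X i) inferInstance) _ XR fun i => ?_
      refine measurable_iff_comap_le.mpr ?_
      exact le_iSup₂_of_le (i : ι) i.2 le_rfl
    have h3 := indep_iSup_of_disjoint (m := fun i => MeasurableSpace.comap (X i) inferInstance)
      (μ := P) (fun i => (hm i).comap_le) hi.iIndep
      (S := ({i₀} : Set ι)) (T := {i | i ≠ i₀}) (by
        rw [Set.disjoint_left]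
        intro i h h'
        exact h' h)
    exact indep_of_indep_of_le_left (indep_of_indep_of_le_right h3 h2) h1
  set κ : Measure ({i // i ≠ i₀} → ℝ) := P.map XR with hκ
  have : IsProbabilityMeasure κ := Measure.isProbabilityMeasure_map hXRm.aemeasurable
  have hjoint : P.map (fun ω => (X i₀ ω, XR ω)) = ν.prod κ := by
    rw [← hl]
    exact (indepFun_iff_map_prod_eq_prod_map_map (hm i₀).aemeasurable
      hXRm.aemeasurable).mp hind
  -- glueing
  set gl : ℝ × ({i // i ≠ i₀} → ℝ) → (ι → ℝ) := fun p i =>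
    if h : i = i₀ then p.1 else p.2 ⟨i, h⟩ with hgl
  have hglm : Measurable gl := by
    refine measurable_pi_lambda _ fun i => ?_
    by_cases h : i = i₀
    · simp only [hgl, h, dite_true]
      fun_prop
    · simp only [hgl, h, dite_false]
      fun_prop
  have hglX : ∀ ω, gl (X i₀ ω, XR ω) = fun i => X i ω := by
    intro ω
    funext i
    by_cases h : i = i₀
    · simp [hgl, h]
    · simp [hgl, h, hXR]
  have hglu : ∀ (u u' : ℝ) (v : {i // i ≠ i₀} → ℝ),
      Function.update (gl (u', v)) i₀ u = gl (u, v) := by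
    intro u u' v
    funext i
    by_cases h : i = i₀
    · subst h
      simp [hgl]
    · rw [Function.update_of_ne h]
      simp [hgl, h]
  have hpair : Measurable fun ω => (X i₀ ω, XR ω) := (hm i₀).prodMk hXRm
  have key : ∀ D : Set (ι → ℝ), MeasurableSet D →
      P {ω | (fun i => X i ω) ∈ D} = (ν.prod κ) (gl ⁻¹' D) := by
    intro D hD
    rw [← hjoint, Measure.map_apply hpair (hglm hD)]
    congr 1
    ext ω
    simp only [Set.mem_preimage, hglX]
    rfl
  set S : Set ({i // i ≠ i₀} → ℝ) := {v | 0 < ν ((fun u => (u, v)) ⁻¹' (gl ⁻¹' E))} with hS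
  have hSm : MeasurableSet S := by
    have h1 : Measurable fun v => ν ((fun u => (u, v)) ⁻¹' (gl ⁻¹' E)) :=
      measurable_measure_prodMk_right (hglm hE)
    exact measurableSet_lt measurable_const h1
  have hEle : P {ω | (fun i => X i ω) ∈ E} ≤ η * κ S := by
    rw [key E hE, Measure.prod_apply_symm (hglm hE)]
    calc ∫⁻ v, ν ((fun u => (u, v)) ⁻¹' (gl ⁻¹' E)) ∂κ
        ≤ ∫⁻ v, S.indicator (fun _ => η) v ∂κ := by
          refine lintegral_mono fun v => ?_
          by_cases hv : v ∈ S
          · rw [Set.indicator_of_mem hv]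
            refine le_trans (le_of_eq ?_) (hη (gl (0, v)))
            congr 1
            ext u
            simp only [Set.mem_preimage, Set.mem_ofPred_eq, hglu]
          · rw [Set.indicator_of_notMem hv]
            have h2 : ¬ 0 < ν ((fun u => (u, v)) ⁻¹' (gl ⁻¹' E)) := hv
            exact not_lt.mp h2
      _ = η * κ S := by
          rw [lintegral_indicator_const hSm]
  have hGge : ν H * κ S ≤ P {ω | (fun i => X i ω) ∈ G} := by
    rw [key G hG]
    have h1 : H ×ˢ S ⊆ gl ⁻¹' G := by
      rintro ⟨u', v⟩ ⟨hu', hv⟩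
      have hv' : 0 < ν ((fun u => (u, v)) ⁻¹' (gl ⁻¹' E)) := hv
      obtain ⟨u, hu⟩ := nonempty_of_measure_ne_zero hv'.ne'
      have h3 := hEG (gl (u, v)) hu u' hu'
      rw [hglu] at h3
      exact h3
    calc ν H * κ S = (ν.prod κ) (H ×ˢ S) := by rw [Measure.prod_prod]
      _ ≤ _ := measure_mono h1
  calc ν H * P {ω | (fun i => X i ω) ∈ E} ≤ ν H * (η * κ S) := by gcongr
    _ = η * (ν H * κ S) := by ring
    _ ≤ η * P {ω | (fun i => X i ω) ∈ G} := by gcongr

end Pool.Agent.Helper41.JT
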