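import Pool.Agent.Helper41.JT.Out
import Pool.Agent.Helper79.GR.KA

/-!
# JT: from joined rays to rays from the origin (helper41)
-/

set_option autoImplicit false

namespace Pool.Agent.Helper41.JT

open Pool.Agent.Helper79.GR MeasureTheory ProbabilityTheory

variable {d : ℕ} {c : Edge d → ℝ}

/-- the steps `g n, g (n + 1), ...` -/
theorem pre_add (g : ℕ → St d) (n m : ℕ) :
    pre g (n + m) = pre g n ++ pre (fun i => g (n + i)) m := by
  unfold pre
  rw [List.range_add, List.map_append, List.map_map]
  rfl

/-- the walk `u` followed by the steps `t` -/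
def glue [Inhabited (St d)] (u : List (St d)) (t : ℕ → St d) (k : ℕ) : St d :=
  if k < u.length then u.getD k default else t (k - u.length)

theorem pre_glue [Inhabited (St d)] (u : List (St d)) (t : ℕ → St d) (m : ℕ) :
    pre (glue u t) (u.length + m) = u ++ pre t m := by
  rw [pre_add]
  congr 1
  · apply List.ext_getElem
    · rw [length_pre]
    · intro i h1 h2
      simp [pre, glue, h2]
  · unfold pre
    apply List.map_congr_left
    intro i _
    simp [glue]

theorem RayF.tail (h : Ok c) {x : V d} {g : ℕ → St d} (hg : RayF c x g) (n : ℕ) :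
    RayF c (pos x (pre g n)) (fun i => g (n + i)) := by
  intro m
  rw [h.geo_iff, ← pos_append, ← pre_add]
  have h1 := (h.geo_iff x _).1 (hg (n + m))
  have h2 := (h.geo_iff x _).1 (hg n)
  have h3 := hg.split h (Nat.le_add_right n m)
  rw [pre_add, cost_append, ← pre_add, h2] at h1
  linarith

/-- `y` joins the ray: there is a ray from `y` which is eventually the ray `g`. -/
theorem Join.exists_ray [Inhabited (St d)] (h : Ok c) {x y : V d} {g : ℕ → St d}
    (hg : RayF c x g) (hj : Join c x y g) :
    ∃ (σ : ℕ → St d) (l k : ℕ), RayF c y σ ∧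
      ∀ m, pos y (pre σ (l + m)) = pos x (pre g (k + m)) := by
  obtain ⟨n, hn⟩ := hj
  obtain ⟨u, hu, hgu⟩ := h.exists_geo y (pos x (pre g n))
  have hpos : ∀ m, pos y (pre (glue u fun i => g (n + i)) (u.length + m)) =
      pos x (pre g (n + m)) := by
    intro m
    rw [pre_glue, pos_append, hu, pre_add, pos_append]
  have hgeo : ∀ m, Geo c y (pre (glue u fun i => g (n + i)) (u.length + m)) := by
    intro m
    rw [pre_glue]
    refine h.geo_append hu hgu (hg.tail h n m) ?_
    rw [← pos_append, ← pre_add]
    have h1 := hg.split h (Nat.le_add_right n m)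
    have h2 := hn (n + m) (Nat.le_add_right n m)
    unfold dl at h2
    linarith
  refine ⟨glue u fun i => g (n + i), u.length, n, fun k => ?_, hpos⟩
  have h1 := (hgeo k).take k
  rwa [take_pre _ (Nat.le_add_left k _)] at h1

/-- `N` disjoint rays which are joined by `0`, or `N` different rays from `0`. -/
theorem rays_of_join (h : Ok c) (N : ℕ)
    (hjoin : Few c 0 N → ∀ (x : V d) (g : ℕ → St d), RayF c x g → Join c x 0 g)
    (hdis : ∃ (x : Fin N → V d) (s : Fin N → ℕ → St d),
      (∀ i n, Geo c (x i) (pre (s i) n)) ∧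
      ∀ i j, i ≠ j → ∀ k l, pos (x i) (pre (s i) k) ≠ pos (x j) (pre (s j) l)) :
    ∃ s : Fin N → ℕ → St d, Function.Injective s ∧ ∀ i, Ray c (s i) := by
  obtain ⟨x, s, hs, hd⟩ := hdis
  by_cases hF : Few c 0 N
  · by_cases hN : N = 0
    · subst hN
      exact ⟨fun i => i.elim0, fun i => i.elim0, fun i => i.elim0⟩
    · have : Inhabited (St d) := ⟨s ⟨0, Nat.pos_of_ne_zero hN⟩ 0⟩
      choose σ l k hσ hpos using fun i => (hjoin hF (x i) (s i) (hs i)).exists_ray h (hs i)
      refine ⟨σ, fun i j hij => ?_, hσ⟩
      by_contra hne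
      have h1 := hpos i (l j)
      have h2 := hpos j (l i)
      rw [hij, add_comm] at h1
      exact hd i j hne _ _ (h1.symm.trans h2)
  · unfold Few at hF
    push Not at hF
    obtain ⟨m, hm⟩ := hF
    exact konig_many c N m fun n => by
      obtain ⟨W, hW, hinj⟩ := hm n
      exact ⟨W, hW, hinj⟩

end Pool.Agent.Helper41.JT
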