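import Pool.Agent.Helper41.JT.Final
import Pool.Agent.Helper41.JT.Tail
import Pool.Agent.Helper67.JT.Cnt
import Pool.Agent.Helper90.JT.Ball

/-!
# JT: the join theorem for weights in `[a, b]`, `a > 0` (helper41)
-/

set_option autoImplicit false

namespace Pool.Agent.Helper41.JT

open Pool.Agent.Helper79.GR MeasureTheory ProbabilityTheory Filter
open scoped ENNReal

variable {d : ℕ} {Ω : Type*} [MeasurableSpace Ω] {P : Measure Ω} {X : Edge d → Ω → ℝ}
  {ν : Measure ℝ}

open Classical in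
/-- piece (C), integrated -/
theorem sum_Ef [IsProbabilityMeasure P] (hm : ∀ e, Measurable (X e))
    (hOk : ∀ᵐ ω ∂P, Ok (cf X ω)) (y : V d) (K : ℕ) (D : Finset (V d × St d)) (U : ℕ)
    (hU : ∀ᵐ ω ∂P, ∀ w, Geo (cf X ω) y w → (D.filter (fun f => f ∈ des y w)).card ≤ U) :
    ∑ f ∈ D, P.real {ω | Ef K y f.1 f.2 (cf X ω)} ≤ ((K * U : ℕ) : ℝ) := by
  have hcf : Measurable fun ω => cf X ω := measurable_pi_lambda _ fun e => hm e
  have hmE : ∀ f : V d × St d, MeasurableSet {ω | Ef K y f.1 f.2 (cf X ω)} := fun f =>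
    hcf (measurableSet_Ef K y f.1 f.2)
  have hint : ∀ f ∈ D, Integrable
      (fun ω => Set.indicator {ω | Ef K y f.1 f.2 (cf X ω)} (fun _ => (1 : ℝ)) ω) P :=
    fun f _ => (integrable_const (1 : ℝ)).indicator (hmE f)
  have h1 : ∫ ω, ∑ f ∈ D,
      Set.indicator {ω | Ef K y f.1 f.2 (cf X ω)} (fun _ => (1 : ℝ)) ω ∂P
      = ∑ f ∈ D, P.real {ω | Ef K y f.1 f.2 (cf X ω)} := by
    rw [integral_finsetSum _ hint]
    apply Finset.sum_congr rfl
    intro f _
    rw [integral_indicator (hmE f)]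
    simp
  have h2 : ∫ ω, ∑ f ∈ D,
      Set.indicator {ω | Ef K y f.1 f.2 (cf X ω)} (fun _ => (1 : ℝ)) ω ∂P ≤
      ∫ _ω, ((K * U : ℕ) : ℝ) ∂P := by
    refine integral_mono_ae (integrable_finsetSum _ hint) (integrable_const _) ?_
    filter_upwards [hOk, hU] with ω hω hUω
    have e1 : ∑ f ∈ D, Set.indicator {ω | Ef K y f.1 f.2 (cf X ω)} (fun _ => (1 : ℝ)) ω
        = ((D.filter (fun f => Ef K y f.1 f.2 (cf X ω))).card : ℝ) := by
      rw [Finset.card_filter, Nat.cast_sum]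
      apply Finset.sum_congr rfl
      intro f _
      by_cases hf : Ef K y f.1 f.2 (cf X ω)
      · rw [if_pos hf, Set.indicator_of_mem (show ω ∈ {ω | Ef K y f.1 f.2 (cf X ω)} from hf)]
        simp
      · rw [if_neg hf, Set.indicator_of_notMem
          (show ω ∉ {ω | Ef K y f.1 f.2 (cf X ω)} from hf)]
        simp
    show ∑ f ∈ D, Set.indicator {ω | Ef K y f.1 f.2 (cf X ω)} (fun _ => (1 : ℝ)) ω ≤ _
    rw [e1]
    exact_mod_cast count (cf X ω) hω y K D U hUω _ (Finset.filter_subset _ _)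
      fun f hf => (Finset.mem_filter.1 hf).2
  rw [h1] at h2
  simpa using h2

/-- The join theorem for weights in `[a, b]`, `a > 0`, and a law without atoms. -/
theorem join_bd {a b : ℝ} (h : Env P X ν a b) (hnu : ∀ t, ν {t} = 0) (y : V d) (K : ℕ) :
    ∀ᵐ ω ∂P, Few (cf X ω) y K → ∀ (x : V d) (g : ℕ → St d), RayF (cf X ω) x g →
      Join (cf X ω) x y g := by
  classical
  rcases Nat.eq_zero_or_pos d with hd | hd
  · subst hd
    refine Eventually.of_forall fun ω _ x g _ => ?_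
    exact (g 0).1.elim0
  have := h.prob
  have hOk : ∀ᵐ ω ∂P, Ok (cf X ω) := Eventually.of_forall fun ω => Ok.of_bd (h.cf_bd ω)
  have : IsProbabilityMeasure ν := by
    rw [← h.law (ed 0 (⟨0, hd⟩, true))]
    exact Measure.isProbabilityMeasure_map (h.meas _).aemeasurable
  have ha0 : ν (Set.Iio a) = 0 := by
    rw [← h.law (ed 0 (⟨0, hd⟩, true)), Measure.map_apply (h.meas _) measurableSet_Iio]
    have : X (ed 0 (⟨0, hd⟩, true)) ⁻¹' Set.Iio a = ∅ := by
      ext ω
      simp only [Set.mem_preimage, Set.mem_Iio, Set.mem_empty_iff_false, iff_false, not_lt]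
      exact (h.bd _ ω).1
    rw [this, measure_empty]
  have hb : 0 ≤ b := by
    obtain ⟨ω⟩ : Nonempty Ω := by
      by_contra hne
      rw [not_nonempty_iff] at hne
      have h1 : P Set.univ = 1 := measure_univ
      rw [Set.univ_eq_empty_iff.2 hne, measure_empty] at h1
      exact zero_ne_one h1
    have := h.bd (ed 0 (⟨0, hd⟩, true)) ω
    linarith [h.apos]
  have hd1 : (1 : ℝ) ≤ d := by exact_mod_cast hd
  have hq0 : (0 : ℝ) < 1 / (64 * (d : ℝ) ^ 2) := by positivity
  have hq1 : 1 / (64 * (d : ℝ) ^ 2) < 1 := by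
    rw [div_lt_one (by positivity)]
    nlinarith
  obtain ⟨β, haβ, hβ0, hβq⟩ := Pool.Agent.Helper90.JT.exists_be hnu ha0 hq0 hq1
  obtain ⟨β'', hβ'', hκ⟩ : ∃ β'' < β, 0 < ν (Set.Ico a β'') := by
    by_contra hcon
    push Not at hcon
    have h1 : Set.Ico a β ⊆ ⋃ n : ℕ, Set.Ico a (β - 1 / ((n : ℝ) + 1)) := by
      rintro t ⟨ht1, ht2⟩
      obtain ⟨n, hn⟩ := exists_nat_one_div_lt (sub_pos.2 ht2)
      exact Set.mem_iUnion.2 ⟨n, ht1, by linarith⟩
    have h2 : ν (⋃ n : ℕ, Set.Ico a (β - 1 / ((n : ℝ) + 1))) = 0 := by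
      rw [measure_iUnion_null_iff]
      intro n
      refine le_antisymm (hcon _ ?_) zero_le
      have : (0 : ℝ) < 1 / ((n : ℝ) + 1) := by positivity
      linarith
    have h3 : ν (Set.Ico a β) = 0 := measure_mono_null h1 h2
    rw [measureReal_def, h3] at hβ0
    simp at hβ0
  have hHigh := Pool.Agent.Helper90.JT.high h.prob h.meas h.indep h.law hd hβq
  set A : ℝ := b / a * (1 + n1 y) + 1 with hA
  have hA0 : 0 ≤ A := by
    have := n1_nonneg y
    have := div_nonneg hb h.apos.le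
    positivity
  have key : ∀ x : V d, ∀ᵐ ω ∂P, Few (cf X ω) y K → ∀ g : ℕ → St d, RayF (cf X ω) x g →
      Join (cf X ω) x y g := by
    intro x
    refine join_ae h.meas h.indep h.law hnu hOk h.apos hβ'' (h.apos.trans haβ) hκ x y K
      (fun M => Pool.Agent.Helper90.JT.DM d M) (K * (2 * A + 1)) (1 / 4) (by norm_num) ?_ ?_
    · filter_upwards [eventually_ge_atTop 1] with M hM
      have hM' : (1 : ℝ) ≤ M := by exact_mod_cast hM
      have h1 := sum_Ef (P := P) (X := X) h.meas hOk y K (Pool.Agent.Helper90.JT.DM d M)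
        ⌈A * (M + 1)⌉₊ (Eventually.of_forall fun ω w hw => by
          have h2 := Pool.Agent.Helper90.JT.card_DM_le (h.cf_bd ω) hb y M w hw
          have h3 := h2.trans (Nat.le_ceil _)
          convert (Nat.cast_le (α := ℝ)).1 h3)
      refine h1.trans ?_
      have h4 : (⌈A * ((M : ℝ) + 1)⌉₊ : ℝ) ≤ A * (M + 1) + 1 :=
        (Nat.ceil_lt_add_one (by positivity)).le
      have h5 : A * ((M : ℝ) + 1) + 1 ≤ (2 * A + 1) * M := by nlinarith
      push_cast
      rw [mul_assoc]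
      exact mul_le_mul_of_nonneg_left (h4.trans h5) (Nat.cast_nonneg K)
    · filter_upwards [hHigh] with ω hω g hg
      obtain ⟨n₀, hn₀⟩ := hω x
      have hinj := Pool.Agent.Helper90.JT.ray_inj (h.cf_bd ω) x g hg
      obtain ⟨M₀, hM₀⟩ := Pool.Agent.Helper90.JT.low_DM (c := cf X ω) x g hinj β n₀
        (fun n hn => hn₀ (pre g n) (by rw [length_pre]; exact hn)
          ((hg n).nodup (h.cf_bd ω))) 0
      filter_upwards [eventually_ge_atTop M₀] with M hM
      have h1 := hM₀ M hM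
      have h2 : (M : ℝ) ≤ 4 * (((Pool.Agent.Helper90.JT.DM d M).filter (fun f : V d × St d =>
        β ≤ cf X ω (ed f.1 f.2) ∧ ∃ n, 0 ≤ n ∧ f = (pos x (pre g n), g n))).card : ℝ) := by
        exact_mod_cast h1
      have h3 : ((Pool.Agent.Helper90.JT.DM d M).filter (fun f : V d × St d =>
        β ≤ cf X ω (ed f.1 f.2) ∧ ∃ n, 0 ≤ n ∧ f = (pos x (pre g n), g n))) =
        ((Pool.Agent.Helper90.JT.DM d M).filter (fun f : V d × St d =>
        β ≤ cf X ω (ed f.1 f.2) ∧ ∃ n, f = (pos x (pre g n), g n))) := by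
        apply Finset.filter_congr
        intro f _
        simp
      rw [h3] at h2
      linarith
  have key' := (ae_all_iff.2 key)
  filter_upwards [key'] with ω hω hF x g hg
  exact hω x hF g hg

/-- **The join theorem**: `N` pairwise disjoint geodesic rays give `N` geodesic rays from `0`. -/
theorem all_rays {a b : ℝ} (h : Env P X ν a b) (hnu : ∀ x, ν {x} = 0) (N : ℕ)
    (hK : ∀ᵐ ω ∂P, ∃ (x : Fin N → V d) (s : Fin N → ℕ → St d),
      (∀ i n, Geo (cf X ω) (x i) (pre (s i) n)) ∧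
      ∀ i j, i ≠ j → ∀ k l, pos (x i) (pre (s i) k) ≠ pos (x j) (pre (s j) l)) :
    ∀ᵐ ω ∂P, ∃ s : Fin N → ℕ → St d, Function.Injective s ∧ ∀ i, Ray (cf X ω) (s i) := by
  filter_upwards [hK, join_bd h hnu 0 N] with ω h1 h2
  exact rays_of_join (Ok.of_bd (h.cf_bd ω)) N h2 h1

end Pool.Agent.Helper41.JT
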