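import Pool.Agent.Helper41.JT.Defs
import Pool.Agent.Helper79.GR.DE
import Pool.Agent.Helper79.GQ.LH

/-!
# JT: basic facts for admissible weights (helper41)
-/

set_option autoImplicit false

namespace Pool.Agent.Helper41.JT

open Pool.Agent.Helper79.GR MeasureTheory ProbabilityTheory

variable {d : ℕ} {c : Edge d → ℝ}

theorem cost_nonneg (hp : ∀ e, 0 < c e) (x : V d) (w : List (St d)) : 0 ≤ cost c x w := by
  induction w generalizing x with
  | nil => exact le_rfl
  | cons s w ih => exact add_nonneg (hp _).le (ih _)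

theorem cost_mono {c c' : Edge d → ℝ} (h : ∀ e, c' e ≤ c e) (x : V d) (w : List (St d)) :
    cost c' x w ≤ cost c x w := by
  induction w generalizing x with
  | nil => exact le_rfl
  | cons s w ih => exact add_le_add (h _) (ih _)

theorem cost_congr {c c' : Edge d → ℝ} (x : V d) (w : List (St d))
    (h : ∀ e ∈ eds x w, c' e = c e) : cost c' x w = cost c x w := by
  rw [cost_eq_sum, cost_eq_sum]
  congr 1
  exact List.map_congr_left h

theorem bddBelow_cost (hp : ∀ e, 0 < c e) (x y : V d) :
    BddBelow (Set.range fun w : {w : List (St d) // pos x w = y} => cost c x w.1) := by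
  refine ⟨0, ?_⟩
  rintro _ ⟨w, rfl⟩
  exact cost_nonneg hp x w.1

theorem T_le_cost' (hp : ∀ e, 0 < c e) {x y : V d} {w : List (St d)} (hw : pos x w = y) :
    T c x y ≤ cost c x w :=
  ciInf_le (bddBelow_cost hp x y) (⟨w, hw⟩ : {w : List (St d) // pos x w = y})

theorem Ok.exists_min (h : Ok c) (x y : V d) : ∃ w, pos x w = y ∧ cost c x w = T c x y := by
  obtain ⟨w₀, hw₀, -⟩ := exists_walk x y
  set S : Set (List (St d)) := {w | pos x w = y ∧ cost c x w ≤ cost c x w₀} with hS
  have hfin : S.Finite := (h.fin x (cost c x w₀)).subset fun w hw => hw.2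
  obtain ⟨w₁, hw₁, hmin⟩ := Set.exists_min_image S (fun w => cost c x w) hfin
    ⟨w₀, hw₀, le_rfl⟩
  have hall : ∀ w : List (St d), pos x w = y → cost c x w₁ ≤ cost c x w := by
    intro w hw
    by_cases hc : cost c x w ≤ cost c x w₀
    · exact hmin w ⟨hw, hc⟩
    · exact (hmin w₀ ⟨hw₀, le_rfl⟩).trans (not_le.mp hc).le
  refine ⟨w₁, hw₁.1, le_antisymm ?_ (T_le_cost' h.ps hw₁.1)⟩
  have : Nonempty {w : List (St d) // pos x w = y} := ⟨⟨w₀, hw₀⟩⟩
  exact le_ciInf fun w => hall w.1 w.2

theorem Ok.geo_iff (h : Ok c) (x : V d) (w : List (St d)) :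
    Geo c x w ↔ cost c x w = T c x (pos x w) := by
  constructor
  · intro hg
    obtain ⟨w', hw', hc'⟩ := h.exists_min x (pos x w)
    refine le_antisymm ?_ (T_le_cost' h.ps rfl)
    rw [← hc']
    exact hg w' hw'
  · intro he w' hw'
    rw [he]
    exact T_le_cost' h.ps hw'

theorem Ok.exists_geo (h : Ok c) (x y : V d) : ∃ w, pos x w = y ∧ Geo c x w := by
  obtain ⟨w, hw, hc⟩ := h.exists_min x y
  refine ⟨w, hw, ?_⟩
  rw [h.geo_iff, hw, hc]

theorem Ok.triangle (h : Ok c) (x y z : V d) : T c x z ≤ T c x y + T c y z := by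
  obtain ⟨w, hw, hc⟩ := h.exists_min x y
  obtain ⟨w', hw', hc'⟩ := h.exists_min y z
  have h1 : pos x (w ++ w') = z := by rw [pos_append, hw, hw']
  have h2 := T_le_cost' h.ps h1
  rw [cost_append, hw, hc, hc'] at h2
  exact h2

theorem T_nonneg (hp : ∀ e, 0 < c e) (x y : V d) : 0 ≤ T c x y :=
  Real.iInf_nonneg fun w => cost_nonneg hp x w.1

theorem T_self (hp : ∀ e, 0 < c e) (x : V d) : T c x x = 0 :=
  le_antisymm (T_le_cost' hp (w := []) rfl) (T_nonneg hp x x)

theorem T_symm (c : Edge d → ℝ) (x y : V d) : T c x y = T c y x :=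
  Pool.Agent.Helper79.GQ.T_symm c x y

/-- the reversed step -/
def rs (s : St d) : St d := (s.1, !s.2)

theorem sv_rs (s : St d) : sv (rs s) = - sv s := by
  rcases s with ⟨i, _ | _⟩ <;> simp [rs, sv, ← Pi.single_neg]

theorem ed_rs (x : V d) (s : St d) : ed (x + sv s) (rs s) = ed x s := by
  apply Subtype.ext
  show s(x + sv s, x + sv s + sv (rs s)) = s(x, x + sv s)
  rw [sv_rs, add_neg_cancel_right]
  exact Sym2.eq_swap

theorem T_step (hp : ∀ e, 0 < c e) (x : V d) (s : St d) : T c x (x + sv s) ≤ c (ed x s) := by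
  have h := T_le_cost' hp (c := c) (x := x) (w := [s]) rfl
  have e : cost c x [s] = c (ed x s) := by simp [cost]
  rwa [e] at h

theorem Ok.step_right (h : Ok c) (y v : V d) (s : St d) :
    T c y (v + sv s) ≤ T c y v + c (ed v s) :=
  (h.triangle y v (v + sv s)).trans (by linarith [T_step h.ps v s])

theorem Ok.step_left (h : Ok c) (y v : V d) (s : St d) :
    T c y v ≤ T c y (v + sv s) + c (ed v s) := by
  have h1 := h.step_right y (v + sv s) (rs s)
  rw [ed_rs, sv_rs, add_neg_cancel_right] at h1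
  exact h1

/-- potentials -/
theorem le_cost_of_lip {φ : V d → ℝ} (hφ : ∀ v s, φ (v + sv s) ≤ φ v + c (ed v s))
    (x : V d) (w : List (St d)) : φ (pos x w) ≤ φ x + cost c x w := by
  induction w generalizing x with
  | nil => simp [pos, cost]
  | cons s w ih =>
    have h1 := ih (x + sv s)
    have h2 := hφ x s
    show φ (pos (x + sv s) w) ≤ φ x + (c (ed x s) + cost c (x + sv s) w)
    linarith

theorem Ok.le_T_of_lip (h : Ok c) {φ : V d → ℝ} (hφ : ∀ v s, φ (v + sv s) ≤ φ v + c (ed v s))
    (x y : V d) : φ y ≤ φ x + T c x y := by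
  obtain ⟨w, hw, hc⟩ := h.exists_min x y
  rw [← hc]
  have := le_cost_of_lip hφ x w
  rwa [hw] at this

theorem T_mono {c c' : Edge d → ℝ} (h : Ok c) (hp' : ∀ e, 0 < c' e) (hcc : ∀ e, c' e ≤ c e)
    (x y : V d) : T c' x y ≤ T c x y := by
  obtain ⟨w, hw, hc⟩ := h.exists_min x y
  rw [← hc]
  exact (T_le_cost' hp' hw).trans (cost_mono hcc x w)

theorem cost_scale {c c' : Edge d → ℝ} {κ : ℝ} (hcc : ∀ e, κ * c e ≤ c' e) (x : V d)
    (w : List (St d)) : κ * cost c x w ≤ cost c' x w := by
  induction w generalizing x with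
  | nil => simp [cost]
  | cons s w ih =>
    show κ * (c (ed x s) + cost c (x + sv s) w) ≤ c' (ed x s) + cost c' (x + sv s) w
    rw [mul_add]
    exact add_le_add (hcc _) (ih _)

theorem Ok.of_scale {c c' : Edge d → ℝ} (h : Ok c) {κ : ℝ} (hκ : 0 < κ)
    (hcc : ∀ e, κ * c e ≤ c' e) : Ok c' := by
  refine ⟨fun e => lt_of_lt_of_le (mul_pos hκ (h.ps e)) (hcc e), fun x R => ?_⟩
  refine (h.fin x (R / κ)).subset fun w hw => ?_
  have h1 := cost_scale hcc x w
  have h2 : cost c' x w ≤ R := hw
  show cost c x w ≤ R / κ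
  rw [le_div_iff₀ hκ, mul_comm]
  exact h1.trans h2

theorem Ok.update [DecidableEq (Edge d)] (h : Ok c) (e : Edge d) {t : ℝ} (ht : 0 < t) :
    Ok (Function.update c e t) := by
  have he := h.ps e
  refine h.of_scale (κ := min 1 (t / c e)) (lt_min one_pos (div_pos ht he)) fun e' => ?_
  by_cases hee : e' = e
  · subst hee
    rw [Function.update_self]
    calc min 1 (t / c e') * c e' ≤ (t / c e') * c e' := by
          apply mul_le_mul_of_nonneg_right (min_le_right _ _) he.le
      _ = t := by field_simp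
  · rw [Function.update_of_ne hee]
    calc min 1 (t / c e) * c e' ≤ 1 * c e' := by
          apply mul_le_mul_of_nonneg_right (min_le_left _ _) (h.ps e').le
      _ = c e' := one_mul _

theorem Ok.of_bd {a b : ℝ} (h : Bd a b c) : Ok c := by
  refine ⟨fun e => h.1.trans_le (h.2 e).1, fun x R => ?_⟩
  obtain ⟨L, hL⟩ := exists_nat_ge (R / a)
  refine (List.finite_length_le (St d) L).subset fun w hw => ?_
  have h1 := le_cost h x w
  have h2 : cost c x w ≤ R := hw
  have h3 : (w.length : ℝ) ≤ R / a := by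
    rw [le_div_iff₀ h.1]; linarith
  exact_mod_cast h3.trans hL

/-! ### Splitting geodesics -/

theorem Ok.split (h : Ok c) {x : V d} {w : List (St d)} (hg : Geo c x w) (n : ℕ) :
    T c x (pos x (w.take n)) + T c (pos x (w.take n)) (pos x w) = T c x (pos x w) := by
  have h1 := (h.geo_iff x w).1 hg
  have h2 := (h.geo_iff x (w.take n)).1 (hg.take n)
  have h3 : cost c x w = cost c x (w.take n) + cost c (pos x (w.take n)) (w.drop n) := by
    rw [← cost_append, List.take_append_drop]
  have h4 : pos (pos x (w.take n)) (w.drop n) = pos x w := by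
    rw [← pos_append, List.take_append_drop]
  have h5 := T_le_cost' h.ps h4
  have h6 := h.triangle x (pos x (w.take n)) (pos x w)
  apply le_antisymm
  · rw [← h1, ← h2, h3]
    linarith
  · exact h6

/-- Concatenation: walks `u` from `x` to `v` and `w` from `v`, both cheapest, through a point of a
geodesic. -/
theorem Ok.geo_append (h : Ok c) {x v : V d} {u w : List (St d)} (hu : pos x u = v)
    (hgu : Geo c x u) (hgw : Geo c v w)
    (hv : T c x v + T c v (pos v w) ≤ T c x (pos v w)) : Geo c x (u ++ w) := by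
  rw [h.geo_iff, cost_append, pos_append, hu]
  have h1 := (h.geo_iff x u).1 hgu
  have h2 := (h.geo_iff v w).1 hgw
  rw [hu] at h1
  rw [h1, h2]
  exact le_antisymm hv (h.triangle _ _ _)

/-- An edge used by a geodesic: one of the two directions. -/
theorem mem_eds_split {x : V d} {w : List (St d)} {e : Edge d} (he : e ∈ eds x w) :
    ∃ (u v : List (St d)) (s : St d), w = u ++ s :: v ∧ ed (pos x u) s = e := by
  induction w generalizing x with
  | nil => simp [eds] at he
  | cons s w ih =>
    simp only [eds, List.mem_cons] at he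
    rcases he with rfl | he
    · exact ⟨[], w, s, rfl, rfl⟩
    · obtain ⟨u, v, s', h1, h2⟩ := ih he
      exact ⟨s :: u, v, s', by rw [h1]; rfl, h2⟩

end Pool.Agent.Helper41.JT
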