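import Pool.Agent.Helper79.GR.DA

/-!
# JT (MP_13b103_pr): the join theorem, definitions and statements (helper41)

`x`, `y` are two points, `K` a number, `ε > 0` small, `c` the weights.  A directed edge is given by
its tail `p` and its step `s`; its head is `p + sv s` and the edge is `ed p s`.
-/

set_option autoImplicit false

namespace Pool.Agent.Helper41.JT

open Pool.Agent.Helper79.GR MeasureTheory ProbabilityTheory

variable {d : ℕ}

/-- admissible weights (no bounds): all weights are positive, finitely many walks from a point have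
cost at most `R` -/
structure Ok (c : Edge d → ℝ) : Prop where
  ps : ∀ e, 0 < c e
  fin : ∀ (x : V d) (R : ℝ), {w : List (St d) | cost c x w ≤ R}.Finite

/-- `δ(v) = T(x,v) - T(y,v)` -/
noncomputable def dl (c : Edge d → ℝ) (x y v : V d) : ℝ := T c x v - T c y v

/-- some geodesic from `y` to `z` goes through `p` and then through the edge `ed p s` -/
def Thr (c : Edge d → ℝ) (y p : V d) (s : St d) (z : V d) : Prop :=
  T c y p + c (ed p s) + T c (p + sv s) z ≤ T c y z

/-- the directed edge `(p, s)` is on geodesics from `y` to far away points -/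
def Yr (c : Edge d → ℝ) (y p : V d) (s : St d) : Prop :=
  ∀ R : ℕ, ∃ z, (R : ℝ) ≤ n1 z ∧ Thr c y p s z

/-- fewer than `K` rays from `y` -/
def Few (c : Edge d → ℝ) (y : V d) (K : ℕ) : Prop :=
  ∀ m : ℕ, ∃ n : ℕ, ∀ W : Fin K → List (St d), (∀ i, n ≤ (W i).length ∧ Geo c y (W i)) →
    ¬ Function.Injective fun i => (W i).take m

/-- fewer than `K` rays from `y` avoid the edge `e` -/
def FewA (c : Edge d → ℝ) (y : V d) (K : ℕ) (e : Edge d) : Prop :=
  ∀ m : ℕ, ∃ n : ℕ, ∀ W : Fin K → List (St d),
    (∀ i, n ≤ (W i).length ∧ Geo c y (W i) ∧ e ∉ eds y (W i)) →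
    ¬ Function.Injective fun i => (W i).take m

/-- some ray from `x` goes through the directed edge `(p, s)` and `y` pays for the use of this edge
on its way to the far away points of this ray more than `0` and at most `ε` -/
def Xr (ε : ℝ) (c : Edge d → ℝ) (x y p : V d) (s : St d) : Prop :=
  ∃ v, dl c x y p < dl c x y v ∧ ∀ R : ℕ, ∃ z, (R : ℝ) ≤ n1 z ∧
    T c x p + c (ed p s) + T c (p + sv s) v + T c v z ≤ T c x z ∧
    dl c x y z ≤ dl c x y p + ε

/-- the event `A_f` -/
def Af (β ε : ℝ) (K : ℕ) (x y p : V d) (s : St d) (c : Edge d → ℝ) : Prop :=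
  β ≤ c (ed p s) ∧ Few c y K ∧ Xr ε c x y p s

/-- the event `E_f` -/
def Ef (K : ℕ) (y p : V d) (s : St d) (c : Edge d → ℝ) : Prop :=
  Yr c y p s ∧ FewA c y K (ed p s)

/-- `y` joins the ray with the steps `g` from `x` -/
def Join (c : Edge d → ℝ) (x y : V d) (g : ℕ → St d) : Prop :=
  ∃ n : ℕ, ∀ m ≥ n, dl c x y (pos x (pre g m)) = dl c x y (pos x (pre g n))

/-- the directed edges of a walk -/
def des : V d → List (St d) → List (V d × St d)
  | _, [] => []
  | x, s :: w => (x, s) :: des (x + sv s) w

end Pool.Agent.Helper41.JT
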