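import Pool.Agent.Helper41.JT.Step

/-!
# JT, step (4): rays which are not joined (helper41)
-/

set_option autoImplicit false

namespace Pool.Agent.Helper41.JT

open Pool.Agent.Helper79.GR MeasureTheory ProbabilityTheory

variable {d : ℕ} {c : Edge d → ℝ}

theorem pre_succ (g : ℕ → St d) (n : ℕ) : pre g (n + 1) = pre g n ++ [g n] := by
  simp [pre, List.range_succ]

theorem length_pre (g : ℕ → St d) (n : ℕ) : (pre g n).length = n := by simp [pre]

theorem take_pre (g : ℕ → St d) {n m : ℕ} (h : n ≤ m) : (pre g m).take n = pre g n := by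
  unfold pre
  rw [← List.map_take, List.take_range, min_eq_left h]

theorem pos_pre_succ (x : V d) (g : ℕ → St d) (n : ℕ) :
    pos x (pre g (n + 1)) = pos x (pre g n) + sv (g n) := by
  rw [pre_succ, pos_append]
  rfl

/-- geodesic rays from `x`, given by their steps -/
def RayF (c : Edge d → ℝ) (x : V d) (g : ℕ → St d) : Prop := ∀ n, Geo c x (pre g n)

theorem RayF.split (h : Ok c) {x : V d} {g : ℕ → St d} (hg : RayF c x g) {n m : ℕ}
    (hnm : n ≤ m) : T c x (pos x (pre g n)) + T c (pos x (pre g n)) (pos x (pre g m))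
      = T c x (pos x (pre g m)) := by
  have := h.split (hg m) n
  rwa [take_pre g hnm] at this

theorem RayF.step (h : Ok c) {x : V d} {g : ℕ → St d} (hg : RayF c x g) (n : ℕ) :
    T c x (pos x (pre g (n + 1))) = T c x (pos x (pre g n)) + c (ed (pos x (pre g n)) (g n)) := by
  have h1 := (h.geo_iff x _).1 (hg (n + 1))
  have h2 := (h.geo_iff x _).1 (hg n)
  rw [← h1, ← h2, pre_succ, cost_append]
  simp [cost]

theorem finite_ball (R : ℕ) : {z : V d | n1 z ≤ R}.Finite := by
  have h : {z : V d | n1 z ≤ R} ⊆ Set.Icc (fun _ => -(R : ℤ)) (fun _ => (R : ℤ)) := by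
    intro z hz
    have hz' : ∑ i, |(z i : ℝ)| ≤ R := hz
    have h1 : ∀ i, |(z i : ℝ)| ≤ R := fun i =>
      (Finset.single_le_sum (f := fun i => |(z i : ℝ)|) (fun j _ => abs_nonneg _)
        (Finset.mem_univ i)).trans hz'
    constructor
    · intro i
      have := (abs_le.1 (h1 i)).1
      exact_mod_cast this
    · intro i
      have := (abs_le.1 (h1 i)).2
      exact_mod_cast this
  exact (Set.finite_Icc _ _).subset h

/-- A ray leaves every ball. -/
theorem RayF.far (h : Ok c) {x : V d} {g : ℕ → St d} (hg : RayF c x g) (m R : ℕ) :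
    ∃ k ≥ m, (R : ℝ) ≤ n1 (pos x (pre g k)) := by
  by_contra hcon
  push Not at hcon
  obtain ⟨M, hM⟩ := ((finite_ball (d := d) R).image (fun z => T c x z)).bddAbove
  have h1 : ∀ k ≥ m, pre g k ∈ {w : List (St d) | cost c x w ≤ M} := by
    intro k hk
    show cost c x (pre g k) ≤ M
    rw [(h.geo_iff x _).1 (hg k)]
    exact hM ⟨_, (hcon k hk).le, rfl⟩
  have h2 : Set.InjOn (pre g) (Set.Ici m) := by
    intro i _ j _ hij
    have := congrArg List.length hij
    rwa [length_pre, length_pre] at this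
  exact (Set.Ici_infinite m) (((h.fin x M).subset (by
    rintro _ ⟨k, hk, rfl⟩
    exact h1 k hk) : (pre g '' Set.Ici m).Finite).of_finite_image h2)

/-- **Step (4)**: if `y` does not join the ray `g` from `x` then `y` pays more than `0` and at most
`ε` for the use of any far edge of `g`. -/
theorem xr_of_not_join (h : Ok c) {x y : V d} {g : ℕ → St d} (hg : RayF c x g)
    (hj : ¬ Join c x y g) {ε : ℝ} (hε : 0 < ε) :
    ∃ n₀, ∀ n ≥ n₀, Xr ε c x y (pos x (pre g n)) (g n) := by
  set a : ℕ → ℝ := fun n => dl c x y (pos x (pre g n)) with ha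
  have hmono : Monotone a := by
    intro n m hnm
    exact dl_mono h (hg.split h hnm).le
  have hbdd : BddAbove (Set.range a) := by
    refine ⟨T c x y, ?_⟩
    rintro _ ⟨n, rfl⟩
    exact dl_le h x y _
  obtain ⟨n₀, hn₀⟩ := exists_lt_of_lt_ciSup (show (⨆ n, a n) - ε < ⨆ n, a n by linarith)
  refine ⟨n₀, fun n hn => ?_⟩
  have hn1 : a n₀ ≤ a n := hmono hn
  have hj' : ∃ m ≥ n, a m ≠ a n := by
    by_contra hcon
    push Not at hcon
    exact hj ⟨n, hcon⟩
  obtain ⟨m, hmn, hne⟩ := hj'
  have hlt : a n < a m := lt_of_le_of_ne (hmono hmn) (Ne.symm hne)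
  have hm1 : n + 1 ≤ m := by
    rcases Nat.eq_or_lt_of_le hmn with h1 | h1
    · subst h1; exact absurd rfl hne
    · exact h1
  refine ⟨pos x (pre g m), hlt, fun R => ?_⟩
  obtain ⟨k, hk, hkR⟩ := hg.far h m R
  refine ⟨pos x (pre g k), hkR, ?_, ?_⟩
  · have h1 := hg.step h n
    have h2 := hg.split h hm1
    have h3 := hg.split h (show m ≤ k from hk)
    rw [pos_pre_succ] at h1 h2
    linarith
  · have h1 : a k ≤ ⨆ n, a n := le_ciSup hbdd k
    show a k ≤ a n + ε
    linarith

end Pool.Agent.Helper41.JT
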