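import Pool.Agent.Helper41.JT.Bas

/-!
# JT: lowering one weight (helper41)
-/

set_option autoImplicit false

namespace Pool.Agent.Helper41.JT

open Pool.Agent.Helper79.GR MeasureTheory ProbabilityTheory

variable {d : ℕ} {c : Edge d → ℝ}

/-- the two directions of an edge -/
theorem ed_eq {v p : V d} {s' s : St d} (h : ed v s' = ed p s) :
    (v = p ∧ v + sv s' = p + sv s) ∨ (v = p + sv s ∧ v + sv s' = p) := by
  have h1 := congrArg Subtype.val h
  simp only [ed, Sym2.eq_iff] at h1
  exact h1

/-- A potential for the weights with one changed weight. -/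
theorem lip_update [DecidableEq (Edge d)] {φ : V d → ℝ} {p : V d} {s : St d} {t : ℝ}
    (h1 : ∀ v s', φ (v + sv s') ≤ φ v + c (ed v s'))
    (h2 : φ (p + sv s) ≤ φ p + t) (h3 : φ p ≤ φ (p + sv s) + t) (v : V d) (s' : St d) :
    φ (v + sv s') ≤ φ v + Function.update c (ed p s) t (ed v s') := by
  by_cases h : ed v s' = ed p s
  · rw [h, Function.update_self]
    rcases ed_eq h with ⟨ha, hb⟩ | ⟨ha, hb⟩
    · rw [hb, ha]; exact h2
    · rw [hb, ha]; exact h3
  · rw [Function.update_of_ne h]
    exact h1 v s'

theorem update_le [DecidableEq (Edge d)] {e : Edge d} {t : ℝ} (ht : t ≤ c e) (e' : Edge d) :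
    Function.update c e t e' ≤ c e' := by
  by_cases h : e' = e
  · subst h; rwa [Function.update_self]
  · rw [Function.update_of_ne h]

/-- `δ` does not decrease along geodesics from `x`. -/
theorem dl_mono (h : Ok c) {x y v z : V d} (hv : T c x v + T c v z ≤ T c x z) :
    dl c x y v ≤ dl c x y z := by
  unfold dl
  have := h.triangle y v z
  linarith

theorem dl_le (h : Ok c) (x y v : V d) : dl c x y v ≤ T c x y := by
  unfold dl
  have := h.triangle x y v
  linarith

/-- **Step (1)**: `y` uses the edge after its weight has been lowered by more than `ε`. -/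
theorem step_one [DecidableEq (Edge d)] (h : Ok c) {x y p z : V d} {s : St d} {ε t : ℝ}
    (ht : 0 < t) (hε : 0 ≤ ε) (hlt : t < c (ed p s) - ε)
    (hz : T c x p + c (ed p s) + T c (p + sv s) z ≤ T c x z)
    (hd : dl c x y z ≤ dl c x y p + ε) :
    Thr (Function.update c (ed p s) t) y p s z := by
  set e := ed p s with he
  set q := p + sv s with hq
  have hc' : Ok (Function.update c e t) := h.update e ht
  have hmono := T_mono h hc'.ps (update_le (c := c) (e := e) (t := t) (by linarith))
  have hxq : T c x q ≤ T c x p + c e := h.step_right x p s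
  have hxz := h.triangle x q z
  have hxz' : T c x q + T c q z ≤ T c x z := by linarith
  have hdq : dl c x y q ≤ dl c x y z := dl_mono h hxz'
  have hxq' : T c x p + c e ≤ T c x q := by linarith
  have hyq : T c y p ≤ T c y q := by
    unfold dl at hdq hd
    linarith
  have hyz : T c y p + t + T c q z ≤ T c y z := by
    unfold dl at hd
    linarith
  set φ : V d → ℝ := fun v => min (T c y v) (T c y p + t + T c q v) with hφ
  have hl : ∀ v s', φ (v + sv s') ≤ φ v + Function.update c (ed p s) t (ed v s') := by
    apply lip_update
    · intro v s'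
      have h1 := h.step_right y v s'
      have h2 := h.step_right q v s'
      simp only [hφ]
      rw [← min_add_add_right]
      exact min_le_min h1 (by linarith)
    · simp only [hφ]
      have h1 : T c q q = 0 := T_self h.ps q
      have h2 : min (T c y p) (T c y p + t + T c q p) = T c y p := by
        apply min_eq_left
        have := T_nonneg h.ps q p
        linarith
      rw [h2]
      refine (min_le_right _ _).trans ?_
      rw [h1]; linarith
    · simp only [hφ]
      have h1 : T c q q = 0 := T_self h.ps q
      refine (min_le_left _ _).trans ?_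
      rw [h1, add_zero, ← min_add_add_right]
      exact le_min (by linarith) (by linarith)
  have h1 := hc'.le_T_of_lip hl y z
  have h2 : φ y ≤ 0 := by
    simp only [hφ]
    refine (min_le_left _ _).trans ?_
    rw [T_self h.ps]
  have h3 : φ z = T c y p + t + T c q z := by
    simp only [hφ]
    exact min_eq_right hyz
  unfold Thr
  rw [← he, ← hq, Function.update_self]
  have h4 := hmono y p
  have h5 := hmono q z
  linarith

/-- Lowering the weight of the edge `(p, q)` does not change `T(q, z)` if `p, q, z` is
geodesic. -/
theorem T_low [DecidableEq (Edge d)] (h : Ok c) {p z : V d} {s : St d} {t : ℝ} (ht : 0 < t)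
    (hle : t ≤ c (ed p s)) (hz : c (ed p s) + T c (p + sv s) z ≤ T c p z) :
    T (Function.update c (ed p s) t) (p + sv s) z = T c (p + sv s) z := by
  set e := ed p s with he
  set q := p + sv s with hq
  have hc' : Ok (Function.update c e t) := h.update e ht
  have hmono := T_mono h hc'.ps (update_le (c := c) (e := e) (t := t) hle)
  refine le_antisymm (hmono q z) ?_
  set φ : V d → ℝ := fun v => min (T c z v) (T c q z + t + T c p v) with hφ
  have hzp : c e + T c q z ≤ T c z p := by rw [T_symm c z p]; exact hz
  have hzq : T c z q = T c q z := T_symm c z q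
  have hl : ∀ v s', φ (v + sv s') ≤ φ v + Function.update c (ed p s) t (ed v s') := by
    apply lip_update
    · intro v s'
      have h1 := h.step_right z v s'
      have h2 := h.step_right p v s'
      simp only [hφ]
      rw [← min_add_add_right]
      exact min_le_min h1 (by linarith)
    · simp only [hφ]
      have h1 : T c p p = 0 := T_self h.ps p
      refine (min_le_left _ _).trans ?_
      rw [h1, add_zero, ← hq, hzq, ← min_add_add_right]
      exact le_min (by linarith) (by linarith)
    · simp only [hφ]
      have h1 : T c p p = 0 := T_self h.ps p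
      refine (min_le_right _ _).trans ?_
      rw [h1, add_zero, ← hq, hzq, ← min_add_add_right]
      have h3 := T_nonneg h.ps p q
      exact le_min (by linarith) (by linarith)
  have h1 := hc'.le_T_of_lip hl z q
  have h2 : φ z ≤ 0 := by
    simp only [hφ]
    refine (min_le_left _ _).trans ?_
    rw [T_self h.ps]
  have h3 : φ q = T c q z := by
    simp only [hφ]
    rw [hzq]
    apply min_eq_left
    have h4 := T_nonneg h.ps p q
    linarith
  have h5 := T_symm (Function.update c e t) q z
  linarith

/-- Geodesics which avoid the edge stay geodesics when its weight is raised. -/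
theorem geo_of_avoid [DecidableEq (Edge d)] {e : Edge d} {t : ℝ} (ht : t ≤ c e)
    {y : V d} {w : List (St d)} (hw : Geo (Function.update c e t) y w) (he : e ∉ eds y w) :
    Geo c y w := by
  intro w' hw'
  have h1 : cost (Function.update c e t) y w = cost c y w := by
    apply cost_congr
    intro e' he'
    rw [Function.update_of_ne]
    rintro rfl
    exact he he'
  rw [← h1]
  exact (hw w' hw').trans (cost_mono (update_le ht) y w')

theorem fewA_of_few [DecidableEq (Edge d)] {e : Edge d} {t : ℝ} (ht : t ≤ c e) {y : V d}
    {K : ℕ} (h : Few c y K) : FewA (Function.update c e t) y K e := by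
  intro m
  obtain ⟨n, hn⟩ := h m
  exact ⟨n, fun W hW => hn W fun i => ⟨(hW i).1, geo_of_avoid ht (hW i).2.1 (hW i).2.2⟩⟩

/-- **Step (1)**, for the events. -/
theorem ef_of_af [DecidableEq (Edge d)] (h : Ok c) {x y p : V d} {s : St d} {β ε t : ℝ} {K : ℕ}
    (ht : 0 < t) (hε : 0 ≤ ε) (hlt : t < β - ε) (hA : Af β ε K x y p s c) :
    Ef K y p s (Function.update c (ed p s) t) := by
  obtain ⟨h1, h2, v, hv, hR⟩ := hA
  refine ⟨fun R => ?_, fewA_of_few (by linarith) h2⟩
  obtain ⟨z, hz1, hz2, hz3⟩ := hR R
  refine ⟨z, hz1, step_one h ht hε (by linarith) ?_ hz3⟩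
  have := h.triangle (p + sv s) v z
  linarith

end Pool.Agent.Helper41.JT
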